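import Pool.Agent.Q256.Surv

/-!
# The survival number of hyperbolic vertex-transitive graphs

`ball`, `cell`, `numInfinite` (`I(T)`), `Separated` (`𝒯(d, n)`), `survival` (`s(G)`) and
`VertexTransitive` are as in the problem. `Hyperbolic G`: there is `δ` such that in every triangle
with geodesic sides each vertex of one side is within distance `δ` of a vertex of the other two
sides (for a connected graph this is Gromov hyperbolicity of the geodesic metric space `G`).

Every infinite connected locally finite vertex-transitive hyperbolic graph which is not of linear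
growth has infinite survival number.
-/

namespace Pool.Agent.Results.MP_5fb5c8_co.HyperbolicInfinite

open SimpleGraph Pool.Agent.Q256.Surv

variable {V : Type*} {G : SimpleGraph V}

/-- the ball `B(v, r)` -/
def ball (G : SimpleGraph V) (v : V) (r : ℕ) : Set V := {u | G.dist u v ≤ r}

/-- `G` has linear growth: `|B(v, r)|` is bounded by a linear function of `r` (for every `v`) -/
def LinearGrowth (G : SimpleGraph V) : Prop :=
  ∀ v : V, ∃ a b : ℕ, ∀ r : ℕ, (ball G v r).ncard ≤ a * r + b

/-- slim triangles: `p`, `q`, `r` are geodesics from `x` to `y`, from `y` to `z` and from `x` to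
`z`; every vertex of `p` is within distance `δ` of a vertex of `q` or `r` -/
def Hyperbolic (G : SimpleGraph V) : Prop :=
  ∃ δ : ℕ, ∀ (x y z : V) (p : G.Walk x y) (q : G.Walk y z) (r : G.Walk x z),
    p.length = G.dist x y → q.length = G.dist y z → r.length = G.dist x z →
    ∀ u ∈ p.support, ∃ w, (w ∈ q.support ∨ w ∈ r.support) ∧ G.dist u w ≤ δ

/-- vertices on a geodesic -/
theorem geo (hc : G.Connected) {x y : V} (p : G.Walk x y) (hp : p.length = G.dist x y) (i : ℕ)
    (hi : i ≤ p.length) :
    G.dist x (p.getVert i) = i ∧ G.dist (p.getVert i) y = G.dist x y - i := by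
  have h1 : G.dist x (p.getVert i) ≤ i := by
    have := dist_le (p.take i)
    rw [Walk.take_length] at this
    omega
  have h2 : G.dist (p.getVert i) y ≤ G.dist x y - i := by
    have := dist_le (p.drop i)
    rw [Walk.drop_length] at this
    omega
  have h3 : G.dist x y ≤ G.dist x (p.getVert i) + G.dist (p.getVert i) y := hc.dist_triangle
  omega

theorem geo_mem (hc : G.Connected) {x y : V} (p : G.Walk x y) (hp : p.length = G.dist x y) {u : V}
    (hu : u ∈ p.support) : G.dist x u + G.dist u y = G.dist x y := by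
  rw [Walk.mem_support_iff_exists_getVert] at hu
  obtain ⟨i, rfl, hi⟩ := hu
  obtain ⟨h1, h2⟩ := geo hc p hp i hi
  omega

theorem exists_between (hc : G.Connected) (x y : V) (t : ℕ) (ht : t ≤ G.dist x y) :
    ∃ m, G.dist x m = t ∧ G.dist m y = G.dist x y - t := by
  obtain ⟨p, hp⟩ := hc.exists_walk_length_eq_dist x y
  exact ⟨p.getVert t, geo hc p hp t (by omega)⟩

/-- the four point condition -/
def FourPoint (G : SimpleGraph V) (c : ℕ) : Prop :=
  ∀ x y z w : V, G.dist w y + G.dist x z ≤ G.dist x y + G.dist w z + c ∨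
    G.dist w y + G.dist x z ≤ G.dist y z + G.dist w x + c

theorem fourPoint_of_hyperbolic (hc : G.Connected) (h : Hyperbolic G) : ∃ c, FourPoint G c := by
  obtain ⟨δ, hδ⟩ := h
  refine ⟨6 * δ + 2, ?_⟩
  intro x y z w
  obtain ⟨a, ha⟩ := hc.exists_walk_length_eq_dist x z
  -- a vertex of the geodesic `[x, z]` close to `w`
  have key : ∃ p ∈ a.support, 2 * G.dist w p + G.dist x z ≤ G.dist w x + G.dist w z + 4 * δ + 2 := by
    obtain ⟨b, hb⟩ := hc.exists_walk_length_eq_dist z w
    obtain ⟨b', hb'⟩ := hc.exists_walk_length_eq_dist x w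
    have hcov := hδ x z w a b b' ha hb hb'
    have hAB : ∀ u, u ∈ a.support → (∃ v ∈ b.support, G.dist u v ≤ δ) ∨
        (∃ v ∈ b'.support, G.dist u v ≤ δ) := by
      intro u hu
      obtain ⟨v, hv | hv, hd⟩ := hcov u hu
      · exact Or.inl ⟨v, hv, hd⟩
      · exact Or.inr ⟨v, hv, hd⟩
    have hex : ∃ i, i ≤ a.length ∧ ∃ v ∈ b.support, G.dist (a.getVert i) v ≤ δ :=
      ⟨a.length, le_rfl, z, b.start_mem_support, by simp⟩
    classical
    obtain ⟨⟨hi1, v, hv, hvd⟩, hmin⟩ := And.intro (Nat.find_spec hex)
      (fun m (hm : m < Nat.find hex) => Nat.find_min hex hm)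
    set i := Nat.find hex with hi
    -- a vertex at distance at most one which is close to the other side
    obtain ⟨j, hj, hji, v', hv', hvd'⟩ : ∃ j, j ≤ i ∧ i ≤ j + 1 ∧
        ∃ v' ∈ b'.support, G.dist (a.getVert j) v' ≤ δ := by
      rcases Nat.eq_zero_or_pos i with h0 | h0
      · refine ⟨0, by omega, by omega, x, b'.start_mem_support, ?_⟩
        simp
      · refine ⟨i - 1, by omega, by omega, ?_⟩
        rcases hAB (a.getVert (i - 1)) (Walk.getVert_mem_support _ _) with h | h
        · exact absurd ⟨by omega, h⟩ (hmin (i - 1) (by omega))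
        · exact h
    refine ⟨a.getVert j, Walk.getVert_mem_support _ _, ?_⟩
    obtain ⟨e1, e2⟩ := geo hc a ha i hi1
    obtain ⟨e3, e4⟩ := geo hc a ha j (by omega)
    have g1 := geo_mem hc b hb hv
    have g2 := geo_mem hc b' hb' hv'
    set u := a.getVert i
    set u' := a.getVert j
    have t1 : G.dist w u' ≤ G.dist w v' + G.dist v' u' := hc.dist_triangle
    have t2 : G.dist x u' ≤ G.dist x v' + G.dist v' u' := hc.dist_triangle
    have t3 : G.dist w u ≤ G.dist w v + G.dist v u := hc.dist_triangle
    have t4 : G.dist z u ≤ G.dist z v + G.dist v u := hc.dist_triangle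
    have t5 : G.dist w u' ≤ G.dist w u + 1 := by
      have s1 : G.dist w u' ≤ G.dist w u + G.dist u u' := hc.dist_triangle
      have s2 : G.dist u u' ≤ 1 := by
        rcases Nat.lt_or_ge j i with hlt | hge
        · have hi' : i = j + 1 := by omega
          have : G.Adj u' u := by
            change G.Adj (a.getVert j) (a.getVert i)
            rw [hi']
            exact a.adj_getVert_succ (by omega)
          rw [dist_comm]
          exact (dist_eq_one_iff_adj.2 this).le
        · have : i = j := by omega
          change G.dist (a.getVert i) (a.getVert j) ≤ 1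
          rw [this]
          simp
      omega
    have c1 : G.dist v' u' = G.dist u' v' := dist_comm
    have c2 : G.dist v u = G.dist u v := dist_comm
    have c3 : G.dist w v' = G.dist v' w := dist_comm
    have c4 : G.dist w v = G.dist v w := dist_comm
    have c5 : G.dist w x = G.dist x w := dist_comm
    have c6 : G.dist w z = G.dist z w := dist_comm
    have c7 : G.dist z u = G.dist u z := dist_comm
    omega
  obtain ⟨p, hp, hpd⟩ := key
  obtain ⟨b, hb⟩ := hc.exists_walk_length_eq_dist z y
  obtain ⟨b', hb'⟩ := hc.exists_walk_length_eq_dist x y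
  obtain ⟨v, hv, hvd⟩ := hδ x z y a b b' ha hb hb' p hp
  have t1 : G.dist w v ≤ G.dist w p + G.dist p v := hc.dist_triangle
  have t2 : G.dist w y ≤ G.dist w v + G.dist v y := hc.dist_triangle
  rcases hv with hv | hv
  · right
    have g1 := geo_mem hc b hb hv
    have t3 : G.dist w z ≤ G.dist w v + G.dist v z := hc.dist_triangle
    have c1 : G.dist v z = G.dist z v := dist_comm
    have c2 : G.dist y z = G.dist z y := dist_comm
    omega
  · left
    have g1 := geo_mem hc b' hb' hv
    have t3 : G.dist w x ≤ G.dist w v + G.dist v x := hc.dist_triangle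
    have c1 : G.dist v x = G.dist x v := dist_comm
    omega

theorem iso_dist {V W : Type*} {G : SimpleGraph V} {H : SimpleGraph W} (hG : G.Connected)
    (hH : H.Connected) (φ : G ≃g H) (u v : V) : H.dist (φ u) (φ v) = G.dist u v := by
  apply le_antisymm
  · obtain ⟨p, hp⟩ := hG.exists_walk_length_eq_dist u v
    rw [← hp]
    have := dist_le (p.map φ.toHom)
    rw [Walk.length_map] at this
    exact this
  · obtain ⟨p, hp⟩ := hH.exists_walk_length_eq_dist (φ u) (φ v)
    rw [← hp]
    have := dist_le (p.map φ.symm.toHom)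
    rw [Walk.length_map] at this
    have e : ∀ x, φ.symm.toHom (φ x) = x := fun x => φ.symm_apply_apply x
    rw [e, e] at this
    exact this

/-- long geodesics through every vertex -/
theorem exists_through [Infinite V] [G.LocallyFinite] (hc : G.Connected)
    (hT : VertexTransitive G) (u : V) (M : ℕ) :
    ∃ p q, G.dist p q = G.dist p u + G.dist u q ∧ M ≤ G.dist p u ∧ M ≤ G.dist u q := by
  obtain ⟨x, hx⟩ := exists_far G hc {u} (2 * M)
  have hx' := hx u (Finset.mem_singleton_self u)
  obtain ⟨m, hm1, hm2⟩ := exists_between hc x u M (by omega)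
  obtain ⟨φ, hφ⟩ := hT m u
  refine ⟨φ x, φ u, ?_, ?_, ?_⟩
  · rw [← hφ, iso_dist hc hc φ, hφ]
    have h1 := iso_dist hc hc φ x m
    have h2 := iso_dist hc hc φ m u
    rw [hφ] at h1 h2
    rw [h1]
    have h3 : G.dist (φ m) (φ u) = G.dist m u := iso_dist hc hc φ m u
    rw [hφ] at h3
    omega
  · have h1 := iso_dist hc hc φ x m
    rw [hφ] at h1
    omega
  · have h2 := iso_dist hc hc φ m u
    rw [hφ] at h2
    omega

/-- `n` directions seen from `v` -/
def Spread (G : SimpleGraph V) (v : V) (n : ℕ) : Prop :=
  ∃ R : ℕ, ∀ L : ℕ, ∃ x : Fin n → V, (∀ i, L ≤ G.dist v (x i)) ∧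
    ∀ i j, i ≠ j → G.dist v (x i) + G.dist v (x j) ≤ G.dist (x i) (x j) + R

theorem spread_succ [Infinite V] [G.LocallyFinite] (hc : G.Connected)
    (hT : VertexTransitive G) {c : ℕ} (h4 : FourPoint G c) (v : V) (hg : ∀ a b : ℕ,
      ∃ r : ℕ, a * r + b < (ball G v r).ncard) (n : ℕ) (hn : Spread G v n) :
    Spread G v (n + 1) := by
  classical
  by_contra hcon
  unfold Spread at hcon
  push Not at hcon
  obtain ⟨R, hR⟩ := hn
  set K : ℕ := (ball G v (3 * c)).ncard with hK
  have hKall : ∀ w, (ball G w (3 * c)).ncard ≤ K := by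
    intro w
    obtain ⟨φ, hφ⟩ := hT v w
    have hsub : ball G w (3 * c) ⊆ φ '' ball G v (3 * c) := by
      intro u hu
      refine ⟨φ.symm u, ?_, φ.apply_symm_apply u⟩
      change G.dist (φ.symm u) v ≤ 3 * c
      have h1 := iso_dist hc hc φ (φ.symm u) v
      rw [φ.apply_symm_apply, hφ] at h1
      rw [← h1]
      exact hu
    calc (ball G w (3 * c)).ncard ≤ (φ '' ball G v (3 * c)).ncard :=
          Set.ncard_le_ncard hsub ((finite_ball G hc v _).image _)
      _ ≤ K := Set.ncard_image_le (finite_ball G hc v _)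
  obtain ⟨r, hr⟩ := hg (n * K) (n * K)
  obtain ⟨L, hL⟩ := hcon (R + 2 * r)
  obtain ⟨x, hxL, hxR⟩ := hR (L + r)
  -- points on the geodesics
  have hpt : ∀ (i : Fin n) (t : ℕ), ∃ m, t ≤ r → (G.dist v m = t ∧
      G.dist m (x i) = G.dist v (x i) - t) := by
    intro i t
    by_cases ht : t ≤ r
    · obtain ⟨m, hm⟩ := exists_between hc v (x i) t (by have := hxL i; omega)
      exact ⟨m, fun _ => hm⟩
    · exact ⟨v, fun h => absurd h ht⟩
  choose g hgp using hpt
  have hcov : ball G v r ⊆ ⋃ k ∈ (Finset.univ : Finset (Fin n)) ×ˢ Finset.range (r + 1),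
      ball G (g k.1 k.2) (3 * c) := by
    intro u hu
    have hu' : G.dist u v ≤ r := hu
    -- a far point with `u` almost between
    have hp : ∃ p, L + r ≤ G.dist u p ∧ G.dist u v + G.dist u p ≤ G.dist v p + c := by
      obtain ⟨p, q, hpq, hp, hq⟩ := exists_through hc hT u (L + r)
      rcases h4 p v q u with h | h
      · refine ⟨p, by rw [dist_comm]; exact hp, ?_⟩
        have c1 : G.dist p v = G.dist v p := dist_comm
        have c2 : G.dist p u = G.dist u p := dist_comm
        omega
      · refine ⟨q, hq, ?_⟩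
        have c2 : G.dist p u = G.dist u p := dist_comm
        omega
    obtain ⟨p, hp1, hp2⟩ := hp
    have hvp : L ≤ G.dist v p := by
      have t1 : G.dist u p ≤ G.dist u v + G.dist v p := hc.dist_triangle
      omega
    obtain ⟨i, j, hij, hlt⟩ := hL (Fin.cons p x) (by
      intro i
      refine Fin.cases ?_ (fun i => ?_) i
      · exact hvp
      · have := hxL i
        simp only [Fin.cons_succ]
        omega)
    have hi : ∃ i : Fin n, G.dist p (x i) + (R + 2 * r) < G.dist v p + G.dist v (x i) := by
      revert hij hlt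
      refine Fin.cases ?_ (fun i => ?_) i
      · refine Fin.cases ?_ (fun j => ?_) j
        · intro h; exact absurd rfl h
        · intro _ h
          exact ⟨j, by simpa using h⟩
      · refine Fin.cases ?_ (fun j => ?_) j
        · intro _ h
          refine ⟨i, ?_⟩
          simp only [Fin.cons_succ, Fin.cons_zero] at h
          have c1 : G.dist (x i) p = G.dist p (x i) := dist_comm
          omega
        · intro hne h
          simp only [Fin.cons_succ] at h
          have := hxR i j (fun e => hne (by rw [e]))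
          omega
    obtain ⟨i, hi⟩ := hi
    refine Set.mem_biUnion (x := (i, G.dist u v)) ?_ ?_
    · simp only [Finset.coe_product, Finset.coe_univ, Finset.coe_range, Set.mem_prod,
        Set.mem_univ, Set.mem_Iio, true_and]
      omega
    · change G.dist u (g i (G.dist u v)) ≤ 3 * c
      obtain ⟨e1, e2⟩ := hgp i (G.dist u v) hu'
      set w := g i (G.dist u v)
      have hxi := hxL i
      have a1 := h4 u p (x i) v
      have a2 := h4 u (x i) w v
      have c1 : G.dist v u = G.dist u v := dist_comm
      have c2 : G.dist (x i) w = G.dist w (x i) := dist_comm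
      have c3 : G.dist p (x i) = G.dist (x i) p := dist_comm
      omega
  have hfin : (⋃ k ∈ (Finset.univ : Finset (Fin n)) ×ˢ Finset.range (r + 1),
      ball G (g k.1 k.2) (3 * c)).Finite :=
    Set.Finite.biUnion (Finset.finite_toSet _) (fun k _ => finite_ball G hc _ _)
  have h1 := Set.ncard_le_ncard hcov hfin
  have h2 : (⋃ k ∈ (Finset.univ : Finset (Fin n)) ×ˢ Finset.range (r + 1),
      ball G (g k.1 k.2) (3 * c)).ncard ≤ n * (r + 1) * K := by
    refine (Finset.set_ncard_biUnion_le _ _).trans ?_
    refine (Finset.sum_le_card_nsmul _ _ K (fun k _ => hKall _)).trans ?_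
    rw [Finset.card_product, Finset.card_univ, Fintype.card_fin, Finset.card_range, smul_eq_mul]
  have h3 : n * (r + 1) * K = n * K * r + n * K := by ring
  omega

/-- **Main theorem.** Let `G` be an infinite, connected, locally finite, vertex-transitive graph
that is hyperbolic and does not have linear growth. Then `s(G) = ∞`. -/
theorem result (G : SimpleGraph V) [Infinite V] [G.LocallyFinite] (hc : G.Connected)
    (hT : VertexTransitive G) (hH : Hyperbolic G) (hg : ¬ LinearGrowth G) : survival G = ⊤ := by
  classical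
  obtain ⟨c, h4⟩ := fourPoint_of_hyperbolic hc hH
  unfold LinearGrowth at hg
  push Not at hg
  obtain ⟨v, hv⟩ := hg
  have hspread : ∀ n, Spread G v n := by
    intro n
    induction n with
    | zero => exact ⟨0, fun L => ⟨fun i => v, fun i => i.elim0, fun i => i.elim0⟩⟩
    | succ n ih => exact spread_succ hc hT h4 v hv n ih
  apply survival_eq_top
  intro n
  obtain ⟨R, hR⟩ := hspread n
  refine ⟨R + c, ?_⟩
  intro T hTs
  by_contra hlt
  rw [not_le] at hlt
  obtain ⟨w, hwT, P, hPT, hPcard, hwP, hfin⟩ := exists_beaten G T (by have := hTs.1; omega)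
  -- a bound for the exceptional vertices
  obtain ⟨L, hL⟩ : ∃ L : ℕ, ∀ u ∈ {u | ∀ p ∈ P, G.dist u w ≤ G.dist u p}, G.dist w u < L := by
    obtain ⟨L, hL⟩ := (hfin.image (fun u => G.dist w u)).bddAbove
    exact ⟨L + 1, fun u hu => Nat.lt_succ_of_le (hL ⟨u, hu, rfl⟩)⟩
  obtain ⟨x, hxL, hxR⟩ := hR L
  obtain ⟨φ, hφ⟩ := hT v w
  have hd : ∀ u, G.dist w (φ u) = G.dist v u := by
    intro u
    rw [← hφ]
    exact iso_dist hc hc φ v u
  have hs : ∀ i, ∃ p ∈ P, G.dist (φ (x i)) p < G.dist (φ (x i)) w := by
    intro i
    by_contra hno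
    push Not at hno
    have := hL (φ (x i)) hno
    rw [hd] at this
    have := hxL i
    omega
  choose s hsP hsd using hs
  have hcard : P.card < (Finset.univ : Finset (Fin n)).card := by
    rw [Finset.card_univ, Fintype.card_fin]
    omega
  obtain ⟨i, -, j, -, hij, hsij⟩ := Finset.exists_ne_map_eq_of_card_lt_of_maps_to hcard
    (fun i _ => hsP i)
  have hsep : R + c < G.dist (s i) w := by
    apply hTs.2 _ (hPT (hsP i)) _ hwT
    intro e
    exact hwP (e ▸ hsP i)
  have h1 := hxR i j hij
  rw [← iso_dist hc hc φ (x i) (x j), ← hd (x i), ← hd (x j)] at h1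
  have h2 := hsd i
  have h3 := hsd j
  rw [← hsij] at h3
  have a1 := h4 (φ (x i)) (s i) (φ (x j)) w
  have c1 : G.dist (φ (x i)) w = G.dist w (φ (x i)) := dist_comm
  have c2 : G.dist (φ (x j)) w = G.dist w (φ (x j)) := dist_comm
  have c3 : G.dist (s i) w = G.dist w (s i) := dist_comm
  have c4 : G.dist (φ (x j)) (s i) = G.dist (s i) (φ (x j)) := dist_comm
  omega

end Pool.Agent.Results.MP_5fb5c8_co.HyperbolicInfinite
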